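import Mathlib
import Pool.Agent.H597Z.UrDefs
import Pool.Agent.H597Z.UrMain
import Pool.Agent.H597Z.UrModel

set_option autoImplicit false

universe u

namespace Pool.Agent.Results.MP_1b98ab_lc.NotConservative

open Pool.Agent.H597Z.Ur

/-- GBcU_R + Collection + Global Choice is consistent and not conservative over ZFCU: there is a
first-order sentence which holds in the first-order part of every two-sorted model of the class
theory and fails in some model of ZFCU. By the completeness theorem the class theory proves the
sentence, and by the soundness theorem ZFCU does not. -/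
theorem result : ∃ σ : Fml Empty 0,
    (∀ (S : Str.{u}) (C : Type u) (cm : S.M → C → Prop), GBC S C cm →
      Sat S Empty.elim σ Fin.elim0) ∧
    (∃ S : Str.{1}, ZFCU S ∧ ¬ Sat S Empty.elim σ Fin.elim0) ∧
    ∃ (S : Str.{1}) (C : Type 1) (cm : S.M → C → Prop), GBC S C cm :=
  ⟨sigma, fun _ _ _ h => (sat_sigma _).2 h.sigma,
    ⟨U ℝ, U_zfcu, fun h => U_not_sigma ((sat_sigma _).1 h)⟩, U ℕ, _, _, U_gbc⟩

end Pool.Agent.Results.MP_1b98ab_lc.NotConservative
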